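import Mathlib
import Pool.Agent.Lib.MP_440a65_co.ErdosGallai
import Pool.Agent.Lib.MP_440a65_co.Inequality
import Pool.Agent.Lib.MP_440a65_co.Parity

/-!
The imbalance conjecture: if every edge of a finite simple graph joins two vertices of different
degrees, then the multiset of the edge imbalances is graphic.

Proof. By the theorem of Erdős and Gallai (file `ErdosGallai`, in a form that quantifies over all
subsets) it is enough to check the inequality for every set `K` of edges (file `Inequality`) and
that the sum of the imbalances is even (file `Parity`).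
-/

set_option autoImplicit false

namespace Pool.Agent.Results.MP_440a65_co.ImbalanceGraphic

open Finset Pool.Agent.MP_440a65_co

/-- A finite multiset of natural numbers is graphic if it is the degree multiset of a simple
graph with as many vertices as the multiset has elements. -/
def Graphic (M : Multiset ℕ) : Prop :=
  ∃ (H : SimpleGraph (Fin (Multiset.card M))) (_ : DecidableRel H.Adj),
    (univ : Finset (Fin (Multiset.card M))).val.map (fun v => H.degree v) = M

lemma exists_graph {V : Type*} [Fintype V] [DecidableEq V] (G : SimpleGraph V)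
    [DecidableRel G.Adj] (hG : ∀ e ∈ G.edgeFinset, 0 < imb G e) (n : ℕ) (g : Fin n ↪ Sym2 V)
    (hg : (univ : Finset (Fin n)).map g = G.edgeFinset) :
    ∃ H : SimpleGraph (Fin n), ∀ i, dg H i = imb G (g i) := by
  classical
  have hgE : ∀ i, g i ∈ G.edgeFinset := fun i => by
    rw [← hg]; exact mem_map_of_mem g (mem_univ i)
  have hsum : ∑ i, imb G (g i) = ∑ e ∈ G.edgeFinset, imb G e := by
    rw [← hg, sum_map]
  have heven : Even (∑ i, imb G (g i)) := by
    rw [hsum]
    exact even_sum_imb G
  refine erdosGallai _ (fun i => imb G (g i)) rfl heven ?_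
  intro K
  unfold EGIneq
  have h := key_ineq G hG (K.map g) (by
    intro e he
    rw [mem_map] at he
    obtain ⟨i, -, rfl⟩ := he
    exact hgE i)
  have h2 : G.edgeFinset \ K.map g = Kᶜ.map g := by
    rw [← hg]
    ext e
    simp only [mem_sdiff, mem_map, mem_univ, true_and, mem_compl]
    constructor
    · rintro ⟨⟨i, rfl⟩, hi⟩
      exact ⟨i, fun hK => hi ⟨i, hK, rfl⟩, rfl⟩
    · rintro ⟨i, hi, rfl⟩
      refine ⟨⟨i, rfl⟩, ?_⟩
      rintro ⟨j, hj, hji⟩
      exact hi (by rwa [← g.injective hji])
  rw [h2, sum_map, sum_map, card_map] at h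
  refine le_trans h (Nat.add_le_add_left (le_of_eq (sum_congr ?_ (fun _ _ => rfl))) _)
  ext i
  simp only [mem_compl]

/-- If every edge of `G` has positive imbalance `|deg u - deg v|`, then the multiset of the edge
imbalances of `G` is graphic. -/
theorem result {V : Type*} [Fintype V] [DecidableEq V] (G : SimpleGraph V) [DecidableRel G.Adj]
    (hG : ∀ e ∈ G.edgeFinset, 0 < imb G e) :
    Graphic (G.edgeFinset.val.map (imb G)) := by
  classical
  unfold Graphic
  obtain ⟨n, hn⟩ : ∃ n, n = Multiset.card (G.edgeFinset.val.map (imb G)) := ⟨_, rfl⟩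
  rw [← hn]
  -- index the edges by `Fin n`
  obtain ⟨f⟩ : Nonempty ({e // e ∈ G.edgeFinset} ≃ Fin n) := by
    refine ⟨Fintype.equivFinOfCardEq ?_⟩
    rw [Fintype.card_coe, hn, Multiset.card_map]
    rfl
  let g : Fin n ↪ Sym2 V := f.symm.toEmbedding.trans (Function.Embedding.subtype _)
  have hmapuniv : (univ : Finset (Fin n)).map g = G.edgeFinset := by
    ext e
    simp only [mem_map, mem_univ, true_and]
    constructor
    · rintro ⟨i, rfl⟩
      exact (f.symm i).2
    · intro he
      refine ⟨f ⟨e, he⟩, ?_⟩
      show (f.symm (f ⟨e, he⟩)).1 = e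
      rw [Equiv.symm_apply_apply]
  obtain ⟨H, hH⟩ := exists_graph G hG n g hmapuniv
  refine ⟨H, Classical.decRel _, ?_⟩
  have h1 : ∀ v, H.degree v = imb G (g v) := by
    intro v
    rw [← hH v]
    unfold dg
    rw [← SimpleGraph.card_neighborFinset_eq_degree]
    congr 1
    ext j
    simp
  have h3 : (univ : Finset (Fin n)).val.map (fun v => imb G (g v))
      = G.edgeFinset.val.map (imb G) := by
    rw [← hmapuniv, Finset.map_val, Multiset.map_map]
    rfl
  rw [← h3]
  exact Multiset.map_congr rfl (fun v _ => h1 v)

end Pool.Agent.Results.MP_440a65_co.ImbalanceGraphic
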